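import Mathlib
import Pool.Agent.X50.SD.Main

/-!
# A finite set of integers with `|S + 2·S| < |S + S|`

The set `S = {0,5,6,9} ∪ {14+10i, 16+10i : 0 ≤ i ≤ 18} ∪ {204,205,206,209,210}` of 47 integers has
`|S + 2·S| = 372 < 373 = |S + S|`. Its indicator function is a fractional dilate `α` with
`‖α + 2·α‖ < ‖α + α‖`.
-/

namespace Pool.Agent.Results.MP_6c466c_co.SmallerDilateSum

open Pool.Agent.X50.SD

theorem result : ∃ S : Finset ℤ, S.card = 47 ∧
    (Finset.image₂ (fun a b : ℤ => a + 2 * b) S S).card <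
      (Finset.image₂ (fun a b : ℤ => a + b) S S).card ∧
    FracDilate (ind S) ∧ nrm 2 (ind S) < nrm 1 (ind S) :=
  ⟨S, card_S, lt_of_lt_of_le (Nat.lt_succ_of_le card_sum2) card_sum1, frac,
    lt_of_lt_of_le nrm2 nrm1⟩

end Pool.Agent.Results.MP_6c466c_co.SmallerDilateSum
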